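import Pool.Agent.X169.NM.Conv

/-!
# Nearly linear homeomorphisms onto a closed 4-manifold, with a fixed error

Let `N` be a closed smooth 4-manifold, for instance one homeomorphic to `S¹ × S³` or to the twisted
product, smoothly embedded in a Euclidean space, and let `L ≥ 1`. There is an error `ε₀ > 0` such
that the following holds for all smooth 4-manifolds `M` and all homeomorphisms `g : M → N`. If every
point of `M` has a smooth parametrization `A`, `L`-bi-Lipschitz for a given function `d` on `M × M`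
(for instance a distance), in which `g` is at all small scales within the relative error `ε₀` of
injective linear maps, then every neighbourhood of the graph of `g` contains the graph of a
diffeomorphism from `M` to `N`.
-/

set_option autoImplicit false

open Set Filter Topology Metric Function
open scoped Manifold ContDiff

namespace Pool.Agent.Results.MP_6db3ee_gt.NearlyLinearHomeomorphisms

/-- `ℝ⁴` -/
abbrev R4 : Type := EuclideanSpace ℝ (Fin 4)

/-- `f : ℝ⁴ → ℝᵐ` is nearly linear at the points of norm at most `r₁` and at all scales up to `r₀`,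
with error `ε` and condition numbers at most `K`: for all these points `p` and scales `r` there is a
linear map `T` that stretches by factors between some `l > 0` and `K * l` with
`f q = f p + T (q - p)` up to an error at most `ε * l * r` for `|q - p| ≤ r`. -/
def NearlyLinear {m : ℕ} (f : R4 → EuclideanSpace ℝ (Fin m)) (ε K r₁ r₀ : ℝ) : Prop :=
  ∀ p : R4, ‖p‖ ≤ r₁ → ∀ r : ℝ, 0 < r → r ≤ r₀ →
    ∃ (T : R4 →L[ℝ] EuclideanSpace ℝ (Fin m)) (l : ℝ), 0 < l ∧
    (∀ v, l * ‖v‖ ≤ ‖T v‖ ∧ ‖T v‖ ≤ K * (l * ‖v‖)) ∧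
    ∀ q, ‖q - p‖ ≤ r → ‖f q - f p - T (q - p)‖ ≤ ε * l * r

/-- `e : N → ℝᵐ` is a smooth injective immersion: smooth, injective, and at every point some linear
image `A ∘ e` is a local diffeomorphism to `ℝ⁴` -/
def SmoothEmbedding {N : Type} [TopologicalSpace N] [ChartedSpace R4 N] {m : ℕ}
    (e : N → EuclideanSpace ℝ (Fin m)) : Prop :=
  ContMDiff (𝓡 4) (𝓡 m) ∞ e ∧ Injective e ∧ ∀ y, ∃ A : EuclideanSpace ℝ (Fin m) →L[ℝ] R4,
    IsLocalDiffeomorphAt (𝓡 4) (𝓡 4) ∞ (fun z => A (e z)) y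

/-- `A` is bi-Lipschitz on the ball of radius `r`, with constant `L`, for the function `d` -/
def BiLip {M : Type} (L : ℝ) (d : M → M → ℝ) (A : R4 → M) (r : ℝ) : Prop :=
  ∀ p q : R4, ‖p‖ ≤ r → ‖q‖ ≤ r →
    ‖q - p‖ ≤ L * d (A p) (A q) ∧ d (A p) (A q) ≤ L * ‖q - p‖

/-- `F : M → ℝᵐ` is nearly linear at `x` with error `ε`, in a smooth parametrization `A` of a
neighbourhood of `x` which is `L`-bi-Lipschitz for `d` -/
def NearlyLinearAt {M : Type} [TopologicalSpace M] [ChartedSpace R4 M] {m : ℕ} (L : ℝ)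
    (d : M → M → ℝ) (ε : ℝ) (F : M → EuclideanSpace ℝ (Fin m)) (x : M) : Prop :=
  ∃ (A : R4 → M) (K r : ℝ), A 0 = x ∧ IsLocalDiffeomorphAt (𝓡 4) (𝓡 4) ∞ A 0 ∧ 0 < r ∧
    BiLip L d A r ∧ NearlyLinear (fun z => F (A z)) ε K r r

/-- `g` can be approximated by diffeomorphisms: every open neighbourhood of its graph contains the
graph of a diffeomorphism -/
def Approximable {M N : Type} [TopologicalSpace M] [ChartedSpace R4 M] [TopologicalSpace N]
    [ChartedSpace R4 N] (g : M → N) : Prop :=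
  ∀ W : Set (M × N), IsOpen W → (∀ x, (x, g x) ∈ W) →
    ∃ D : Diffeomorph (𝓡 4) (𝓡 4) M N ∞, ∀ x, (x, D x) ∈ W

theorem result (N : Type) [TopologicalSpace N] [CompactSpace N] [ChartedSpace R4 N]
    [IsManifold (𝓡 4) ∞ N] (m : ℕ) (e : N → EuclideanSpace ℝ (Fin m))
    (he : SmoothEmbedding e) (L : ℝ) (hL : 1 ≤ L) :
    ∃ ε₀ : ℝ, 0 < ε₀ ∧ ∀ (M : Type) [TopologicalSpace M] [ChartedSpace R4 M]
      [IsManifold (𝓡 4) ∞ M] (g : M ≃ₜ N) (d : M → M → ℝ),
      (∀ x, NearlyLinearAt L d ε₀ (fun x => e (g x)) x) → Approximable g := by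
  obtain ⟨he, hi, hd'⟩ := he
  have hd := fun y => Pool.Agent.X169.NM.mfd_inj e he y (hd' y)
  have hemb : IsEmbedding e := (he.continuous.isClosedEmbedding hi).isEmbedding
  obtain ⟨ε₀, hε₀, h⟩ := Pool.Agent.X169.NM.glob_fixed (n := 4) (by norm_num) L hL e he hemb hd
  refine ⟨ε₀, hε₀, ?_⟩
  intro M _ _ _ g d hx W hW hgW
  have : CompactSpace M := g.symm.compactSpace
  obtain ⟨ρ₀, hρ₀, hρW⟩ := Pool.Agent.X169.NM.graph_nhd g g.continuous e hemb W hW hgW
  obtain ⟨G, hG, hGL, hGe⟩ := h M g d hx ρ₀ hρ₀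
  obtain ⟨D, hD⟩ := Pool.Agent.X169.NM.diffeo_of_LD G hG hGL
  exact ⟨D, fun x => hρW x _ (by rw [hD]; exact hGe x)⟩

end Pool.Agent.Results.MP_6db3ee_gt.NearlyLinearHomeomorphisms
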